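import Pool.Agent.H73.GWT.Stmts

/-!
# Row PPS of project GWT (popping pieces)
-/

set_option autoImplicit false

namespace GWT

variable {ι G V : Type*} [Fintype ι] [Group G] [MulAction G V] (C : Code ι G V)

theorem PPS : PPSStmt C := by
  intro θ q σ
  induction σ with
  | nil =>
    intro v m hv hm _
    have hv' : v = C.o := hv
    subst hv'
    have h0 : C.T.dist C.o m = 0 := by
      unfold Bt at hm
      have h1 : C.T.dist C.o C.o = 0 := SimpleGraph.dist_self
      omega
    have hm0 : C.o = m := dzero C.tree h0
    subst hm0
    refine ⟨0, le_refl _, rfl, Or.inl ?_⟩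
    have h1 : C.T.dist C.o C.o = 0 := SimpleGraph.dist_self
    show C.T.dist C.o C.o ≤ _
    omega
  | cons c σ ih =>
    intro v m hv hm hK
    obtain ⟨g, u, hu, hside, hσ⟩ := hv
    rcases Nat.lt_or_ge (C.d C.o m) (C.d C.o u) with hlt | hge
    · -- `m` before `u`
      obtain ⟨hmu, hmuv⟩ := ORD C.tree hm hu (le_of_lt hlt)
      obtain ⟨r, hr, hpc, hor⟩ := ih u m hσ hmu (by
        intro c' g' P Q h1 h2 h3
        refine hK c' g' P Q ?_ h2 h3
        have e1 : C.T.dist m u + C.T.dist u v = C.T.dist m v := hmuv
        have t1 := dtri C.tree Q u v
        have t2 := dtri C.tree m P v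
        have t3 := dtri C.tree P Q v
        change C.T.dist m P + C.T.dist P Q + C.T.dist Q u = C.T.dist m u at h1
        change C.T.dist m P + C.T.dist P Q + C.T.dist Q v = C.T.dist m v
        omega)
      refine ⟨r + 1, by simpa using hr, by simpa using hpc, ?_⟩
      rcases hor with hle | ⟨c', hc', hq⟩
      · rcases Nat.lt_or_ge (C.d u v) θ with h | h
        · left
          have e1 : C.T.dist m u + C.T.dist u v = C.T.dist m v := hmuv
          change C.T.dist m v ≤ _
          change C.T.dist m u ≤ _ at hle
          change C.T.dist u v < _ at h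
          have : θ * (r + 1 + 1) = θ * (r + 1) + θ := by ring
          omega
        · right
          refine ⟨c, by simp, hK c g u v ?_ h ?_⟩
          · have e1 : C.T.dist m u + C.T.dist u v = C.T.dist m v := hmuv
            have e2 : C.T.dist v v = 0 := SimpleGraph.dist_self
            change C.T.dist m u + C.T.dist u v + C.T.dist v v = C.T.dist m v
            omega
          · exact hside
      · right
        exact ⟨c', by simp [List.take_succ_cons, hc'], hq⟩
    · -- `u` before `m`
      obtain ⟨hum, humv⟩ := ORD C.tree hu hm hge
      have e1 : C.T.dist u m + C.T.dist m v = C.T.dist u v := humv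
      change C.T.dist (g • C.o) u + C.T.dist u v + C.T.dist v (g • c • C.o)
        = C.T.dist C.o (c • C.o) at hside
      have hd : C.T.dist (g • C.o) (g • c • C.o) = C.T.dist C.o (c • C.o) := C.ds g _ _
      refine ⟨0, Nat.zero_le _, ⟨g, u, hum, ?_, hσ⟩, ?_⟩
      · change C.T.dist (g • C.o) u + C.T.dist u m + C.T.dist m (g • c • C.o)
          = C.T.dist C.o (c • C.o)
        have t1 := dtri C.tree m v (g • c • C.o)
        have t2 := dtri C.tree (g • C.o) u (g • c • C.o)
        have t3 := dtri C.tree u m (g • c • C.o)
        omega
      · rcases Nat.lt_or_ge (C.d m v) θ with h | h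
        · left
          have : θ * (0 + 1) = θ := by ring
          omega
        · right
          refine ⟨c, by simp, hK c g m v ?_ h ?_⟩
          · have e2 : C.T.dist v v = 0 := SimpleGraph.dist_self
            have e3 : C.T.dist m m = 0 := SimpleGraph.dist_self
            change C.T.dist m m + C.T.dist m v + C.T.dist v v = C.T.dist m v
            omega
          · change C.T.dist (g • C.o) m + C.T.dist m v + C.T.dist v (g • c • C.o)
              = C.T.dist C.o (c • C.o)
            have t1 := dtri C.tree (g • C.o) u m
            have t2 := dtri C.tree (g • C.o) m (g • c • C.o)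
            have t3 := dtri C.tree m v (g • c • C.o)
            omega

end GWT
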